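import Pool.Agent.X261.DT.Ex

/-!
Superelliptic curves over `k(t)` whose Jacobians have rank `m (q - 1)` and trivial `p`-primary part of
the Tate-Shafarevich group in all layers of the towers `t = Φ_e(t_e)`, where `Φ_e` is the composition
of the polynomials `t ^ p + c_i`. The definitions of the Jacobian, of the statement of the Tate
conjecture and of the triviality of the Tate-Shafarevich group are in `Pool.Agent.Y160.SL.Jac`,
`IsBasisAt` is in `Pool.Agent.Y160.SL.Fam`.
-/

set_option autoImplicit false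

open Polynomial IsDedekindDomain
open scoped Classical

namespace Pool.Agent.Results.MP_bd895b_nt.ArborealTowersRanks

open Pool.Agent.TH115.GD (IsTower)
open Pool.Agent.Y160.SL (Jac TateAt ShaTriv IsBasisAt)

section defs

variable {k : Type} [Field k]

/-- The polynomials `Φ_0 = t` and `Φ_(e + 1) = Φ_e(t ^ p + c_e)`. -/
noncomputable def iter (p : ℕ) (c : ℕ → k) : ℕ → k[X]
  | 0 => X
  | e + 1 => (iter p c e).comp (X ^ p + C (c e))

/-- Conditions for `f` in `k[x]`, monic of degree `n`, for `b` and the prime `P` in `k[t]` and for the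
polynomials `g_i` in `k[t][x]`: the primes dividing `b` are inert in the cover `t = f(x)` of the line, `P`
does not divide `b`, and `b ^ n (f(x / b) - t) - P` is the product of the monic polynomials `g_i`, which
are irreducible and different modulo `P`. -/
structure IsSplitPrime (f b P : k[X]) {r : ℕ} (g : Fin r → k[X][X]) : Prop where
  monic : f.Monic
  ne_zero : b ≠ 0
  inert : ∀ Q : k[X], Irreducible Q → Q ∣ b → Irreducible (Q.comp f)
  prime : Irreducible P
  not_dvd : ¬ P ∣ b
  eq : (f.map C - C X).scaleRoots b = C P + ∏ i, g i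
  fac_monic : ∀ i, (g i).Monic
  fac_irreducible : ∀ i, Irreducible ((g i).map (AdjoinRoot.mk P))
  distinct : ∀ i i', i ≠ i' → (g i).map (AdjoinRoot.mk P) ≠ (g i').map (AdjoinRoot.mk P)

/-- Conditions for the values `a_e = Φ_e(c_e)`: `f - a_e` is irreducible and separable, and `P(a_e)`
divided by the leading coefficient of `P` is no `p`-th power in `k`. -/
structure IsGoodTower (p : ℕ) (f P : k[X]) (c : ℕ → k) : Prop where
  irreducible : ∀ e, Irreducible (f - C ((iter p c e).eval (c e)))
  separable : ∀ e, (f - C ((iter p c e).eval (c e))).Separable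
  not_pow : ∀ (e : ℕ) (v : k), P.eval ((iter p c e).eval (c e)) ≠ v ^ p * P.leadingCoeff

/-- The polynomial `D(Φ) ^ n (f(x / D(Φ)) - Φ)` in `x` over `K = k(t)`, where `n` is the degree of
`f`. -/
noncomputable def twist (K : Type) [Field K] [Algebra k[X] K] (f D Φ : k[X]) : K[X] :=
  ((f.map C - C Φ).scaleRoots (D.comp Φ)).map (algebraMap k[X] K)

/-- The conclusions: the Tate conjecture at `p` for the surface `w ^ q = G(x)` over the projective line,
`Ш(J / K)[p ^ ∞] = 0` for the Jacobian `J` of its generic fibre over `K`, and a basis of `J(K)` at `p`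
with `r (q - 1)` elements. -/
def Holds (p q r : ℕ) (k k' F : Type) {K : Type} [Field k] [Field k'] [Field K] [Field F]
    [Algebra K F] [Algebra k[X] K] [IsFractionRing k[X] K] [Algebra k'[X] F]
    [IsFractionRing k'[X] F] (G : K[X]) : Prop :=
  TateAt (F := F) p q k' G ∧ ShaTriv p q k[X] G ∧
    ∃ b : Fin (r * (q - 1)) → Jac q G K, IsBasisAt p b

/-- The polynomial `x ^ (2 m) + α x ^ m + γ`. -/
noncomputable def base (m : ℕ) (α γ : k) : k[X] := X ^ (2 * m) + C α * X ^ m + C γ

/-- The polynomial `P = a ^ (2 m) + α a ^ m b ^ m + b ^ (2 m) (γ - t)`. -/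
noncomputable def prm (m : ℕ) (α γ : k) (a b : k[X]) : k[X] :=
  a ^ (2 * m) + C α * (a ^ m * b ^ m) + b ^ (2 * m) * (C γ - X)

/-- The polynomials `x - ξ ^ i a` for `i < m` and `x ^ m + a ^ m + α b ^ m`. -/
noncomputable def fac (m : ℕ) (α ξ : k) (a b : k[X]) (i : Fin (m + 1)) : k[X][X] :=
  if (i : ℕ) < m then X - C (C (ξ ^ (i : ℕ)) * a) else X ^ m + C (a ^ m + C α * b ^ m)

/-- Conditions for `a` and `b` in `k[t]`: `P` is irreducible, the primes dividing `b` are inert in the
cover `t = x ^ (2 m) + α x ^ m + γ`, and a condition for the value of `P` at `γ`. -/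
structure IsGoodPair (m : ℕ) (α γ ξ : k) (a b : k[X]) : Prop where
  one_lt : 1 < m
  root : IsPrimitiveRoot ξ m
  coprime : IsCoprime a b
  ne_zero : b ≠ 0
  inert : ∀ Q : k[X], Irreducible Q → Q ∣ b → Irreducible (Q.comp (base m α γ))
  prime : Irreducible (prm m α γ a b)
  at_gamma : ∀ l : ℕ, l.Prime → l ∣ m → ∀ v : k,
    (prm m α γ a b).eval γ ≠ v ^ l * (prm m α γ a b).leadingCoeff

end defs

theorem holds_of {k k' K F : Type} [Field k] [Field k'] [Field K] [Field F] [Algebra K F]
    [Algebra k[X] K] [IsFractionRing k[X] K] [Algebra k'[X] F] [IsFractionRing k'[X] F]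
    {p q r : ℕ} {G : K[X]} (h : Pool.Agent.Y160.SL.Concl p q r k k' F G) :
    Holds p q r k k' F G := by
  obtain ⟨D, hD1, hD2⟩ := h.basis
  let e : Fin (r * (q - 1)) ≃ Fin r × Fin (q - 1) := finProdFinEquiv.symm
  refine ⟨h.tate, h.sha, fun i => D (e i), hD1.comp _ e.injective, fun n x => ?_⟩
  obtain ⟨y, hy⟩ := hD2 n x
  refine ⟨y, ?_⟩
  have e1 : Set.range (fun i => D (e i)) = Set.range D := e.surjective.range_comp D
  rw [e1]
  exact hy

theorem iter_eq {k : Type} [Field k] (p : ℕ) (c : ℕ → k) (e : ℕ) :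
    iter p c e = Pool.Agent.X261.DT.Phi p c e := by
  induction e with
  | zero => rfl
  | succ e ih => rw [iter, ih, Pool.Agent.X261.DT.Phi]

theorem split_of {k : Type} [Field k] {m : ℕ} {α γ ξ : k} {a b : k[X]}
    (h : IsGoodPair m α γ ξ a b) :
    IsSplitPrime (base m α γ) b (prm m α γ a b) (fac m α ξ a b) := by
  have hm : 0 < m := by
    have := h.one_lt
    omega
  have hP : Irreducible (Pool.Agent.X261.MB.PG m α γ a b) := h.prime
  have h0 : (Pool.Agent.X261.MB.PG m α γ a b).eval γ ≠ 0 := by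
    intro h1
    obtain ⟨l, hl, hlm⟩ := Nat.exists_prime_and_dvd h.one_lt.ne'
    refine h.at_gamma l hl hlm 0 ?_
    rw [zero_pow hl.ne_zero, zero_mul]
    exact h1
  exact ⟨Pool.Agent.X261.MB.fG_monic hm α γ, h.ne_zero, h.inert,
    hP, (Pool.Agent.X261.MB.PG_dvd h.coprime hP hm h0).1,
    Pool.Agent.X261.MB.fac_G hm h.root, fun i => Pool.Agent.X261.MB.gB_monic hm i,
    fun i => Pool.Agent.X261.MB.gG_irr hm h.root h.coprime hP h.at_gamma h0 i,
    fun i i' hne => Pool.Agent.X261.MB.gG_ne h.one_lt h.root h.coprime hP h0 hne⟩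

theorem fac_coprime {k : Type} [Field k] {p m : ℕ} (hcop : p.Coprime (2 * m)) (α ξ : k)
    (a b : k[X]) (i : Fin (m + 1)) : p.Coprime (fac m α ξ a b i).natDegree := by
  unfold fac
  split_ifs
  · rw [natDegree_X_sub_C]
    exact Nat.coprime_one_right p
  · rw [natDegree_X_pow_add_C]
    exact hcop.coprime_mul_left_right

theorem good7 {k : Type} [Field k] [Finite k] {r : ℕ} (hr : Nat.card k = 7 ^ r)
    (h30 : r.Coprime 30) : IsGoodPair 2 (3 : k) 0 (-1) (X + 2) (X - 2) ∧
      IsGoodTower 3 (base 2 (3 : k) 0) (prm 2 (3 : k) 0 (X + 2) (X - 2)) (fun _ => 1) := by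
  have := Pool.Agent.X261.MS.charP7 hr
  have h7 : (7 : k) = 0 := by
    have := CharP.cast_eq_zero k 7
    exact_mod_cast this
  have ho : Odd r := Nat.coprime_two_right.1 (Nat.Coprime.coprime_dvd_right (by norm_num) h30)
  have h3 : r.Coprime 3 := Nat.Coprime.coprime_dvd_right (by norm_num) h30
  have h5 : r.Coprime 5 := Nat.Coprime.coprime_dvd_right (by norm_num) h30
  have h2 : (2 : k) ≠ 0 := by
    intro h0
    have h1 : (1 : k) = 0 := by linear_combination h7 - 3 * h0
    exact one_ne_zero h1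
  have h4 : (4 : k) ≠ 0 := by
    intro h0
    have h1 : (1 : k) = 0 := by linear_combination 2 * h0 - h7
    exact one_ne_zero h1
  have hl2 : ∀ l : ℕ, l.Prime → l ∣ 2 → l = 2 := fun l hl h =>
    (Nat.prime_dvd_prime_iff_eq hl Nat.prime_two).1 h
  have hirr1 : Irreducible (base 2 (3 : k) 0 - C 1) := Pool.Agent.X261.DT.fA_irr1 hr ho
  have hirr2 : Irreducible (base 2 (3 : k) 0 - C 2) := Pool.Agent.X261.DT.fA_irr2 hr ho
  have h8 : (prm 2 (3 : k) 0 (X + 2) (X - 2)).leadingCoeff = -1 := Pool.Agent.X261.DT.PA_lc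
  have hval : ∀ e : ℕ, (iter 3 (fun _ => (1 : k)) e).eval 1 = 1 ∨
      (iter 3 (fun _ => (1 : k)) e).eval 1 = 2 := fun e => by
    rw [iter_eq]
    exact Pool.Agent.X261.DT.Phi_one h7 e
  have hirr : ∀ e : ℕ, Irreducible (base 2 (3 : k) 0 - C ((iter 3 (fun _ => (1 : k)) e).eval 1)) :=
    fun e => by
      rcases hval e with h | h
      · rw [h]
        exact hirr1
      · rw [h]
        exact hirr2
  refine ⟨⟨one_lt_two, IsPrimitiveRoot.neg_one 7 (by norm_num), ?_, ?_, ?_,
    Pool.Agent.X261.DT.PA_irr hr h5, ?_⟩, hirr,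
    fun e => PerfectField.separable_of_irreducible (hirr e), fun e v => ?_⟩
  · refine ⟨C (1 / 4), -C (1 / 4), ?_⟩
    have h3 : (C (1 / 4) : k[X]) * 4 = 1 := by
      have : (4 : k[X]) = C 4 := (map_ofNat C 4).symm
      rw [this, ← C_mul, one_div, inv_mul_cancel₀ h4, C_1]
    linear_combination h3
  · rw [show (2 : k[X]) = C 2 from (map_ofNat C 2).symm]
    exact X_sub_C_ne_zero 2
  · intro Q hQ hd
    rw [show (2 : k[X]) = C 2 from (map_ofNat C 2).symm] at hd
    obtain ⟨u, hu⟩ := (hQ.associated_of_dvd (irreducible_X_sub_C 2) hd).symm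
    obtain ⟨c, hc, hc'⟩ := isUnit_iff.1 u.isUnit
    rw [← hu, mul_comp, sub_comp, X_comp, C_comp, ← hc', C_comp,
      irreducible_mul_isUnit (isUnit_C.2 hc)]
    exact hirr2
  · intro l hl hd v hv
    rw [hl2 l hl hd] at hv
    have h6 : (prm 2 (3 : k) 0 (X + 2) (X - 2)).eval 0 = 64 := Pool.Agent.X261.DT.PA_zero
    rw [h6, h8] at hv
    refine Pool.Agent.X261.MS.not_sq7 hr ho (3 * v) ?_
    linear_combination 83 * h7 - 9 * hv
  · intro hv
    rw [h8] at hv
    rcases hval e with h | h
    · rw [h] at hv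
      have h6 : (prm 2 (3 : k) 0 (X + 2) (X - 2)).eval 1 = 107 := Pool.Agent.X261.DT.PA_one
      rw [h6] at hv
      exact Pool.Agent.X261.DT.not_pow1 hr h3 v hv
    · rw [h] at hv
      have h6 : (prm 2 (3 : k) 0 (X + 2) (X - 2)).eval 2 = 256 := Pool.Agent.X261.DT.PA_two
      rw [h6] at hv
      exact Pool.Agent.X261.DT.not_pow2 hr h3 v hv

/-- **Arboreal towers.** Let `p` be a prime number, `q = p ^ (s + 1)`.

1. Let `k` be a field which contains the `q`-th roots of unity, with `-1` a square if `p = 2`, `K = k(t)`,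
`kb` a separable closure of `k` and `F = kb(t)`. Let `f` of degree `n`, `b`, `P` and the `m + 1`
polynomials `g_i` be as in `IsSplitPrime`, so `b ^ n (f(x / b) - t) = P + ∏ g_i`, where `p` divides
neither `n` nor the degrees of the `g_i`, and `D = b P ^ j` with `q ∣ n j + 1`. Let `c_0, c_1, ...` be a
sequence in `k`, `Φ_0 = t`, `Φ_(e + 1) = Φ_e(t ^ p + c_e)`, which satisfies the conditions
`IsGoodTower`. Then for all `e`, for the curve `w ^ q = D(Φ_e) ^ n (f(x / D(Φ_e)) - Φ_e)` over `K` with
the Jacobian `J` we have `Ш(J / K)[p ^ ∞] = 0`, the Tate conjecture at `p` holds over `k` for the surface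
of this equation, and there is a basis of `J(K)` at `p` with `m (q - 1)` elements, so the rank of `J(K)`
is `m (q - 1)`. These curves are the pull-backs of the curve for `e = 0` along the covers `Φ_e` of the
line.

2. If `a`, `b` are as in `IsGoodPair`, then `IsSplitPrime` holds with
`f = x ^ (2 m) + α x ^ m + γ`, `P = a ^ (2 m) + α a ^ m b ^ m + b ^ (2 m) (γ - t)`, `g_i = x - ξ ^ i a`,
`i < m`, and `g_m = x ^ m + a ^ m + α b ^ m`; the degrees are prime to `p` if `p` is prime to `2 m`.

3. All conditions hold for example over the fields with `7 ^ r` elements, `r` prime to `30`, for `p = 3`,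
`m = 2`, `α = 3`, `γ = 0`, `a = t + 2`, `b = t - 2` and `c_e = 1` for all `e`, so `Φ_e` is the `e`-th
iterate of `t ^ 3 + 1`. -/
theorem result (p s : ℕ) (hp : p.Prime) :
    (∀ (k : Type) [Field k] (ζ : k), IsPrimitiveRoot ζ (p ^ (s + 1)) → (p = 2 → IsSquare (-1 : k)) →
      ∀ (m : ℕ) (f b P : k[X]) (g : Fin (m + 1) → k[X][X]), IsSplitPrime f b P g →
      p.Coprime f.natDegree → (∀ i, p.Coprime (g i).natDegree) →
      ∀ c : ℕ → k, IsGoodTower p f P c →
      ∀ j : ℕ, p ^ (s + 1) ∣ f.natDegree * j + 1 →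
      ∀ (kb K F : Type) [Field kb] [Algebra k kb] [Field K] [Algebra k[X] K]
        [IsFractionRing k[X] K] [Field F] [Algebra kb[X] F] [IsFractionRing kb[X] F] [Algebra K F],
        IsTower k kb K F → ∀ e : ℕ,
          Holds p (p ^ (s + 1)) m k kb F (twist K f (b * P ^ j) (iter p c e))) ∧
    (∀ (k : Type) [Field k] (m : ℕ) (α γ ξ : k) (a b : k[X]), IsGoodPair m α γ ξ a b →
      IsSplitPrime (base m α γ) b (prm m α γ a b) (fac m α ξ a b) ∧
        (p.Coprime (2 * m) → p.Coprime (base m α γ).natDegree ∧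
          ∀ i, p.Coprime (fac m α ξ a b i).natDegree)) ∧
    (∀ (k : Type) [Field k] [Finite k] (r : ℕ), Nat.card k = 7 ^ r → r.Coprime 30 →
      IsGoodPair 2 (3 : k) 0 (-1) (X + 2) (X - 2) ∧
      IsGoodTower 3 (base 2 (3 : k) 0) (prm 2 (3 : k) 0 (X + 2) (X - 2)) (fun _ => 1)) := by
  refine ⟨?_, ?_, ?_⟩
  · intro k _ ζ hζ h4 m f b P g h hcop hgd c hc j hj kb K F _ _ _ _ _ _ _ _ _ hT e
    have hζ' : IsPrimitiveRoot (ζ ^ (p ^ s)) p :=
      hζ.pow (pow_pos hp.pos _) (by rw [pow_succ])
    have hn0 : 0 < f.natDegree := by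
      have h1 := (hc.irreducible 0).natDegree_pos
      rwa [natDegree_sub_C] at h1
    have hder : derivative f ≠ 0 := by
      intro h0
      have h1 := hc.separable 0
      rw [Polynomial.separable_def, derivative_sub, derivative_C, sub_zero, h0,
        isCoprime_zero_right] at h1
      exact (hc.irreducible 0).not_isUnit h1
    have hbase := Pool.Agent.X261.DT.DD.base h.monic hn0 hder hcop h.ne_zero h.not_dvd h.inert h.prime
      h.fac_monic hgd h.eq h.fac_irreducible h.distinct
    have hall := hbase.all hp hζ' h4 c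
      (fun e => by
        rw [Pool.Agent.X261.DT.graph_eval, ← iter_eq]
        exact hc.irreducible e)
      (fun e => by
        rw [Pool.Agent.X261.DT.graph_eval, ← iter_eq]
        exact hc.separable e)
      (fun e v => by
        rw [← iter_eq]
        exact hc.not_pow e v) e
    have hdeg : ((Pool.Agent.X261.TS.graph f).map
        (compRingHom (Pool.Agent.X261.DT.Phi p c e))).natDegree = f.natDegree := by
      rw [(Pool.Agent.X261.TS.monic_graph h.monic hn0).natDegree_map,
        Pool.Agent.X261.TS.natDegree_graph]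
    have h1 := hall.concl (s := s) hT hp hζ (j := j) (by rw [hdeg]; exact hj)
    have h2 : b.comp (Pool.Agent.X261.DT.Phi p c e) * (P.comp (Pool.Agent.X261.DT.Phi p c e)) ^ j =
        (b * P ^ j).comp (Pool.Agent.X261.DT.Phi p c e) := by
      rw [mul_comp, pow_comp]
    rw [h2, Pool.Agent.X261.DT.graph_comp, ← iter_eq] at h1
    exact holds_of h1
  · intro k _ m α γ ξ a b h
    have hm : 0 < m := by
      have := h.one_lt
      omega
    refine ⟨split_of h, fun hcop => ⟨?_, fac_coprime hcop α ξ a b⟩⟩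
    have h1 : (base m α γ).natDegree = 2 * m := Pool.Agent.X261.MB.fG_deg hm α γ
    rw [h1]
    exact hcop
  · intro k _ _ r hr h30
    exact good7 hr h30

end Pool.Agent.Results.MP_bd895b_nt.ArborealTowersRanks
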