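import Pool.Agent.X261.BC.Main

/-!
Superelliptic curves over `k(t)` whose branch curve is any smooth affine plane curve with trivial
`p`-part of the class group. The definitions of the Jacobian, of the statement of the Tate conjecture and
of the triviality of the Tate-Shafarevich group are in `Pool.Agent.Y160.SL.Jac`, `IsBasisAt` is in
`Pool.Agent.Y160.SL.Fam`.
-/

set_option autoImplicit false

open Polynomial IsDedekindDomain
open scoped Classical

namespace Pool.Agent.Results.MP_bd895b_nt.BranchCurvesOfAnyGenus

open Pool.Agent.TH115.GD (IsTower)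
open Pool.Agent.Y160.SL (Jac TateAt ShaTriv IsBasisAt)

section defs

variable {k : Type} [Field k]

/-- The polynomial `f` in `x` over `k[t]` defines a smooth, absolutely irreducible affine plane curve
whose coordinate ring `R = k[t, x] / (f)` has no units besides the constants and no ideal classes of
order `p` (if the `p`-th power of an ideal is principal, the ideal is principal); `f` is monic in `x`, of
degree prime to `p`, and its derivative with respect to `x` is not zero. For example, `R` is the ring of
the functions on a smooth projective curve (of any genus) over a finite field which are regular outside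
one rational point, and the class number of the curve is prime to `p`. -/
structure IsBranchCurve (p : ℕ) (f : k[X][X]) : Prop where
  monic : f.Monic
  coprime : p.Coprime f.natDegree
  irreducible : ∀ (k' : Type) [Field k'] [Algebra k k'],
    Irreducible (f.map (mapRingHom (algebraMap k k')))
  derivative_ne_zero : derivative f ≠ 0
  smooth : Ideal.span {f, derivative f, f.sum fun i a => C (derivative a) * X ^ i} = ⊤
  dedekind : IsDedekindDomain (AdjoinRoot f)
  ideals : ∀ I : Ideal (AdjoinRoot f), (I ^ p).IsPrincipal → I.IsPrincipal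
  units : ∀ u : (AdjoinRoot f)ˣ, ∃ c : k, (u : AdjoinRoot f) = algebraMap k (AdjoinRoot f) c

/-- All primes `P` dividing `D` are inert in the curve `f(x, t) = 0` over the line: modulo `P` the
polynomial `f` in `x` is irreducible over the field `k[t] / (P)`. -/
def IsInert (f : k[X][X]) (D : k[X]) : Prop :=
  D ≠ 0 ∧ ∀ P : k[X], Irreducible P → P ∣ D → Irreducible (f.map (AdjoinRoot.mk P))

/-- The prime `P(t) = f(c(t), t)` has exactly two primes above it in the curve `f(x, t) = 0`, the point
`x = c(t)` and another one: `P` is irreducible, and modulo `P` the polynomial `f` in `x` is the product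
of `x - c` and a polynomial which is irreducible over the field `k[t] / (P)`. -/
def IsMixed (f : k[X][X]) (c : k[X]) : Prop :=
  Irreducible (f.eval c) ∧ ∃ g : (AdjoinRoot (f.eval c))[X],
    f.map (AdjoinRoot.mk (f.eval c)) = (X - C (AdjoinRoot.mk (f.eval c) c)) * g ∧ Irreducible g

/-- The polynomial `D ^ n f(x / D, t)` in `x` over `K = k(t)`, where `n` is the degree of `f` in `x`. The
surface `w ^ q = D ^ n f(x / D, t)` is the twist of `w ^ q = f(x, t)` by `D(t) ^ n`. -/
noncomputable def twist (K : Type) [Field K] [Algebra k[X] K] (f : k[X][X]) (D : k[X]) : K[X] :=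
  (f.scaleRoots D).map (algebraMap k[X] K)

/-- The conclusions: the Tate conjecture at `p` for the surface `w ^ q = G(x)` over the projective line,
`Ш(J / K)[p ^ ∞] = 0` for the Jacobian `J` of its generic fibre over `K`, and a basis of `J(K)` at `p`
with `r (q - 1)` elements. -/
def Holds (p q r : ℕ) (k k' F : Type) {K : Type} [Field k] [Field k'] [Field K] [Field F]
    [Algebra K F] [Algebra k[X] K] [IsFractionRing k[X] K] [Algebra k'[X] F]
    [IsFractionRing k'[X] F] (G : K[X]) : Prop :=
  TateAt (F := F) p q k' G ∧ ShaTriv p q k[X] G ∧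
    ∃ b : Fin (r * (q - 1)) → Jac q G K, IsBasisAt p b

end defs

theorem holds_of {k k' K F : Type} [Field k] [Field k'] [Field K] [Field F] [Algebra K F]
    [Algebra k[X] K] [IsFractionRing k[X] K] [Algebra k'[X] F] [IsFractionRing k'[X] F]
    {p q r : ℕ} {G : K[X]} (h : Pool.Agent.Y160.SL.Concl p q r k k' F G) :
    Holds p q r k k' F G := by
  obtain ⟨D, hD1, hD2⟩ := h.basis
  let e : Fin (r * (q - 1)) ≃ Fin r × Fin (q - 1) := finProdFinEquiv.symm
  refine ⟨h.tate, h.sha, fun i => D (e i), hD1.comp _ e.injective, fun n x => ?_⟩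
  obtain ⟨y, hy⟩ := hD2 n x
  refine ⟨y, ?_⟩
  have e1 : Set.range (fun i => D (e i)) = Set.range D := e.surjective.range_comp D
  rw [e1]
  exact hy

theorem ring_of {k : Type} [Field k] {p : ℕ} (hp : p.Prime) {f : k[X][X]}
    (h : IsBranchCurve p f) : ∃ _ : IsDedekindDomain (AdjoinRoot f),
      Pool.Agent.Y160.T7.PropT p k (AdjoinRoot f) :=
  ⟨h.dedekind, by
    let := h.dedekind
    exact Pool.Agent.X261.BC.propT_of_class hp.pos
      (Pool.Agent.X261.BC.class_of_ideal h.ideals) h.units⟩

/-- **Branch curves of any genus.** Let `p` be a prime number, `q = p ^ (s + 1)`, `k` a field which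
contains the `q`-th roots of unity, `K = k(t)`, `kb` a separable closure of `k` and `F = kb(t)`.

1. Let `f` be a branch curve as in `IsBranchCurve`, of degree `n` in `x`, and `D` a product of primes of
`k[t]` which are inert in it. Then for the curve `w ^ q = D ^ n f(x / D, t)` over `K` with the Jacobian
`J` we have `Ш(J / K)[p ^ ∞] = 0`, the group `J(K)` is `p`-divisible (so it is finite of order prime to
`p` if `k` is finite), and the Tate conjecture at `p` holds over `k` for the surface of this equation.

2. If `n > 2` and `P = f(c(t), t)` is as in `IsMixed`, `D = P ^ j` with `q ∣ n j + 1`, then the same holds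
with a basis of `J(K)` at `p` with `q - 1` elements: the rank of `J(K)` is `q - 1`.

3. Let the characteristic of `k` be not two, and `p ≠ 3`. If the elliptic curve
`y ^ 2 = x ^ 3 + a x ^ 2 + b x + c` over `k` has no rational point of order `p`, then
`f = x ^ 3 + a x ^ 2 + b x + c - t ^ 2` is a branch curve as in `IsBranchCurve`. -/
theorem result (p s : ℕ) (hp : p.Prime) (k : Type) [Field k] (ζ : k)
    (hζ : IsPrimitiveRoot ζ (p ^ (s + 1))) :
    (∀ f : k[X][X], IsBranchCurve p f →
      ∀ (kb K F : Type) [Field kb] [Algebra k kb] [Field K] [Algebra k[X] K]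
        [IsFractionRing k[X] K] [Field F] [Algebra kb[X] F] [IsFractionRing kb[X] F] [Algebra K F],
        IsTower k kb K F →
        (∀ D : k[X], IsInert f D → Holds p (p ^ (s + 1)) 0 k kb F (twist K f D)) ∧
        (2 < f.natDegree → ∀ c : k[X], IsMixed f c → ∀ j : ℕ, p ^ (s + 1) ∣ f.natDegree * j + 1 →
          Holds p (p ^ (s + 1)) 1 k kb F (twist K f (f.eval c ^ j)))) ∧
    (∀ a b c : k, (2 : k) ≠ 0 → p ≠ 3 → (X ^ 3 + C a * X ^ 2 + C b * X + C c).Separable →
      (∀ P : (⟨0, a, 0, b, c⟩ : WeierstrassCurve k).toAffine.Point, p • P = 0 → P = 0) →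
      IsBranchCurve p ((X ^ 3 + C a * X ^ 2 + C b * X + C c).map C - C (X ^ 2))) := by
  refine ⟨?_, ?_⟩
  · intro f h kb K F _ _ _ _ _ _ _ _ _ hT
    refine ⟨fun D hD => ?_, fun hn c hc j hj => ?_⟩
    · exact holds_of (Pool.Agent.X261.BC.mainI hT hp hζ h.monic h.coprime (h.irreducible kb)
        h.derivative_ne_zero h.smooth (ring_of hp h) hD.1 hD.2)
    · obtain ⟨hPi, g, hg, hgi⟩ := hc
      have hcof : (f.map (AdjoinRoot.mk (f.eval c))) /ₘ (X - C (AdjoinRoot.mk (f.eval c) c)) = g := by
        rw [hg, mul_divByMonic_cancel_left _ (monic_X_sub_C _)]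
      exact holds_of (Pool.Agent.X261.BC.mainM hT hp hζ h.monic h.coprime (h.irreducible kb)
        h.derivative_ne_zero h.smooth (ring_of hp h) hn hPi (by rw [hcof]; exact hgi) hj)
  · intro a b c h2 h3 hs hP
    have hd : 0 < (Pool.Agent.X261.BC.cub a b c).natDegree := by
      rw [Pool.Agent.X261.BC.cub_deg]
      norm_num
    have hm := Pool.Agent.X261.BC.cub_monic a b c
    obtain ⟨r1, r2, r3⟩ := Pool.Agent.X261.BC.ell_ring h2 hs hp.pos hP
    refine ⟨Pool.Agent.X261.BC.monic_sup hm hd 2, ?_, ?_, ?_, ?_, r1, r2, r3⟩
    · show p.Coprime (Pool.Agent.X261.BC.sup (Pool.Agent.X261.BC.cub a b c) 2).natDegree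
      rw [Pool.Agent.X261.BC.natDegree_sup, Pool.Agent.X261.BC.cub_deg]
      exact (Nat.coprime_primes hp Nat.prime_three).2 h3
    · intro k' _ _
      exact Pool.Agent.X261.BC.irr_closure hs hd one_lt_two k'
    · show derivative (Pool.Agent.X261.BC.sup (Pool.Agent.X261.BC.cub a b c) 2) ≠ 0
      rw [Pool.Agent.X261.BC.derivative_sup, Polynomial.map_ne_zero_iff C_injective]
      intro h0
      rw [Polynomial.Separable] at hs
      have h1 : IsUnit (Pool.Agent.X261.BC.cub a b c) := by
        have h4 : IsCoprime (Pool.Agent.X261.BC.cub a b c) 0 := by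
          rw [← h0]
          exact hs
        exact isCoprime_zero_right.1 h4
      have h5 := natDegree_eq_zero_of_isUnit h1
      omega
    · exact Pool.Agent.X261.BC.smooth_sup hs (by exact_mod_cast h2)

end Pool.Agent.Results.MP_bd895b_nt.BranchCurvesOfAnyGenus
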