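import Pool.Agent.X292.FW.Fin

/-!
# Approximation of zero-cycles on 100% of the Fano hypersurfaces over `F_q(t)`

Let `F` be a finite field, `n ≥ 3` and `2 ≤ d ≤ n`, so that the smooth hypersurfaces of degree `d` in
`ℙⁿ` are Fano varieties (cubic surfaces are included). Among the forms `f` of degree `d` in `n + 1`
variables over `F[t]`, with coefficients of degree less than `A`, for which `X : f = 0` has points
over all the completions of `F(t)`, a proportion tending to `1` as `A → ∞` has the following
property, with `m = m(A) → ∞`: for all integers `ε 1, …, ε r`, every family of local zero-cycles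
`∑ ε i P i`, where `P i` is a point of `X` over the completion at `v`, one for each place `v`, is
approximated to precision `m` at infinity and at all the places of degree at most `m` by
a zero-cycle `∑ ε i R i` with `R i ∈ X(F(t))`. In particular `X` has a zero-cycle of degree one.

The theorem is the analogue over `F_q(t)` of the starting result `RandomZeroCycles` over `ℚ`.
-/

set_option autoImplicit false

namespace Pool.Agent.Results.MP_bd895b_nt.RandomZeroCyclesFunctionField

open Polynomial IsDedekindDomain WithZero

/-- The forms of degree `d` in `n + 1` variables over `F[t]` all of whose coefficients have degree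
less than `A`. -/
def Forms (F : Type) [Field F] (n d A : ℕ) : Set (MvPolynomial (Fin (n + 1)) F[X]) :=
  {f | f.IsHomogeneous d ∧ ∀ m, (f.coeff m).degree < A}

/-- The embedding of `F[t]` in the completion `F((u))`, `u = 1 / t`, of `F(t)` at infinity:
`t` goes to the inverse of `u`. -/
noncomputable def toInfty (F : Type) [Field F] : F[X] →+* LaurentSeries F :=
  (Polynomial.aeval (HahnSeries.single (-1 : ℤ) (1 : F)) : F[X] →ₐ[F] LaurentSeries F).toRingHom

/-- The points of the hypersurface `f = 0` over the completion of `F(t)` at the maximal ideal `v` of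
`F[t]`, given by their homogeneous coordinates. -/
def LocalPoints {F : Type} [Field F] {n : ℕ} (f : MvPolynomial (Fin (n + 1)) F[X])
    (v : HeightOneSpectrum F[X]) : Set (Fin (n + 1) → v.adicCompletion (RatFunc F)) :=
  {z | z ≠ 0 ∧ MvPolynomial.aeval z f = 0}

/-- The points of the hypersurface `f = 0` over the completion of `F(t)` at infinity. -/
def PointsAtInfty {F : Type} [Field F] {n : ℕ} (f : MvPolynomial (Fin (n + 1)) F[X]) :
    Set (Fin (n + 1) → LaurentSeries F) :=
  {z | z ≠ 0 ∧ MvPolynomial.eval₂ (toInfty F) z f = 0}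

/-- The points of the hypersurface `f = 0` over `F(t)`, given by homogeneous coordinates in
`F[t]`. -/
def GlobalPoints {F : Type} [Field F] {n : ℕ} (f : MvPolynomial (Fin (n + 1)) F[X]) :
    Set (Fin (n + 1) → F[X]) :=
  {x | x ≠ 0 ∧ MvPolynomial.eval x f = 0}

/-- The hypersurface `f = 0` has points over all the completions of `F(t)`. -/
def LocallySoluble {F : Type} [Field F] {n : ℕ} (f : MvPolynomial (Fin (n + 1)) F[X]) : Prop :=
  (∀ v : HeightOneSpectrum F[X], (LocalPoints f v).Nonempty) ∧ (PointsAtInfty f).Nonempty

/-- In the projective space over the completion at `v`, the point `x` is close to the point `z`: for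
some `c ≠ 0` all `z i - c x i` have absolute value at most `e ^ (-m)` times the absolute value of
a nonzero coordinate of `z` (here a uniformizer has absolute value `e ^ (-1)`). -/
def CloseAt {F : Type} [Field F] {n : ℕ} (v : HeightOneSpectrum F[X]) (m : ℕ)
    (z : Fin (n + 1) → v.adicCompletion (RatFunc F)) (x : Fin (n + 1) → F[X]) : Prop :=
  ∃ (r : Fin (n + 1)) (c : v.adicCompletion (RatFunc F)), z r ≠ 0 ∧ c ≠ 0 ∧
    ∀ i, Valued.v (z i - c * algebraMap F[X] (v.adicCompletion (RatFunc F)) (x i)) ≤
      exp (-(m : ℤ)) * Valued.v (z r)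

/-- In the projective space over the completion at infinity, the point `x` is close to the point `z`:
for some `c ≠ 0` the series `z i - c x i` have no terms of order less than `m` plus the order of
a nonzero coordinate of `z`. -/
def CloseAtInfty {F : Type} [Field F] {n : ℕ} (m : ℕ) (z : Fin (n + 1) → LaurentSeries F)
    (x : Fin (n + 1) → F[X]) : Prop :=
  ∃ (r : Fin (n + 1)) (c : LaurentSeries F), z r ≠ 0 ∧ c ≠ 0 ∧ ∀ i, ∀ k : ℤ,
    k < (z r).order + m → (z i - c * toInfty F (x i)).coeff k = 0

/-- Approximation of zero-cycles with precision `m` at infinity and at all the places of degree at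
most `m` (the maximal ideals which contain a nonzero polynomial of degree at most `m`): for every
`s` and all `P 1, …, P s` over each completion there are points `R 1, …, R s` of the hypersurface
over `F(t)` with `R i` close to `P i` at these places for all `i`; so for all integers `ε i` the
zero-cycle `∑ ε i R i` approximates the local zero-cycles `∑ ε i P i`. -/
def ZeroCycleApproximation {F : Type} [Field F] {n : ℕ} (m : ℕ)
    (f : MvPolynomial (Fin (n + 1)) F[X]) : Prop :=
  ∀ (s : ℕ)
    (P : ∀ v : HeightOneSpectrum F[X], Fin s → Fin (n + 1) → v.adicCompletion (RatFunc F))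
    (Q : Fin s → Fin (n + 1) → LaurentSeries F),
    (∀ v i, P v i ∈ LocalPoints f v) → (∀ i, Q i ∈ PointsAtInfty f) →
    ∃ R : Fin s → Fin (n + 1) → F[X], (∀ i, R i ∈ GlobalPoints f) ∧
      (∀ v : HeightOneSpectrum F[X], (∃ g ∈ v.asIdeal, g ≠ 0 ∧ g.natDegree ≤ m) →
        ∀ i, CloseAt v m (P v i) (R i)) ∧ ∀ i, CloseAtInfty m (Q i) (R i)

/-- **Approximation of zero-cycles on 100% of the Fano hypersurfaces over `F_q(t)`.** -/
theorem result (F : Type) [Field F] [Finite F] (n d : ℕ) (hn : 3 ≤ n) (hd : 2 ≤ d)
    (hdn : d ≤ n) :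
    ∃ m : ℕ → ℕ, Filter.Tendsto m Filter.atTop Filter.atTop ∧
      Filter.Tendsto (fun A : ℕ =>
        (({f ∈ Forms F n d A | LocallySoluble f ∧ ZeroCycleApproximation (m A) f} :
          Set _).ncard : ℝ) /
        (({f ∈ Forms F n d A | LocallySoluble f} : Set _).ncard : ℝ))
        Filter.atTop (nhds 1) := by
  obtain ⟨e, rfl⟩ : ∃ e, d = e + 2 := ⟨d - 2, by omega⟩
  obtain ⟨m, h1, h2⟩ := Pool.Agent.X292.FW.main (F := F) (ι := Fin (n + 1)) e
    (by rw [Fintype.card_fin]; omega) (by rw [Fintype.card_fin]; omega)
  refine ⟨m, h1, ?_⟩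
  have h3 : ∀ (k : ℕ) (f : MvPolynomial (Fin (n + 1)) F[X]),
      ZeroCycleApproximation k f ↔ Pool.Agent.X292.FW.WeakApprox k f := by
    intro k f
    constructor
    · intro h z y hz hy0 hy
      obtain ⟨R, hR0, hR1, hR2⟩ := h 1 (fun v _ => z v) (fun _ => y) (fun v _ => hz v)
        (fun _ => ⟨hy0, hy⟩)
      exact ⟨R 0, (hR0 0).1, (hR0 0).2, fun v hv => hR1 v hv 0, hR2 0⟩
    · intro h s P Q hP hQ
      have h4 := fun i : Fin s => h (fun v => P v i) (Q i) (fun v => hP v i) (hQ i).1 (hQ i).2
      choose R hR0 hR1 hR2 hR3 using h4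
      exact ⟨R, fun i => ⟨hR0 i, hR1 i⟩, fun v hv i => hR2 i v hv, fun i => hR3 i⟩
  simp only [h3]
  exact h2

end Pool.Agent.Results.MP_bd895b_nt.RandomZeroCyclesFunctionField
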