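import Pool.Agent.X261.TS.Tow

/-!
The Tate-Shafarevich and Selmer groups at `p` of the twists, by products of inert primes, of the tower
curves `w ^ q = f(x, t)` over `k'(t)`, for all extensions `k'` of `p`-power degree of a finite field `k`.
The definitions of the Jacobian and of its Galois cohomology are in `Pool.Agent.Y160.SL.Jac`, the class
`IsTowerCurve` is in `Pool.Agent.Y160.SL.Cls`.
-/

set_option autoImplicit false

open Polynomial IsDedekindDomain
open scoped Classical

namespace Pool.Agent.Results.MP_bd895b_nt.TwistedTowersPExtensions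

open Pool.Agent.TH115.GD (Sep Comp)
open Pool.Agent.Y160.SL (Jac IsCoc IsCobOf LocTriv ShaTriv IsTowerCurve)

section defs

variable {k : Type} [Field k]

/-- The polynomial `D ^ n f(x / D, t)` in `x` over `K = k(t)`, where `n` is the degree of `f` in `x`. The
curve `w ^ q = D ^ n f(x / D, t)` is the twist of `w ^ q = f(x, t)` by `D(t) ^ n`. -/
noncomputable def twist (K : Type) [Field K] [Algebra k[X] K] (f : k[X][X]) (D : k[X]) : K[X] :=
  (f.scaleRoots D).map (algebraMap k[X] K)

/-- The irreducible factors `P(t)` of `D` are inert in the curve `f(x, t) = 0`: modulo `P` the polynomial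
`f` in `x` is irreducible over the field `k[t] / (P)`. -/
def IsInert (f : k[X][X]) (D : k[X]) : Prop :=
  D ≠ 0 ∧ ∀ P : k[X], Irreducible P → P ∣ D → Irreducible (f.map (AdjoinRoot.mk P))

/-- The conclusions for the Jacobian `J` of the curve `w ^ q = F(x)` over `K = k(t)`: the `p`-primary
part of the Tate-Shafarevich group is zero; `J(K) = p ^ m J(K)` for all `m`; and the Selmer groups at
`p ^ m` are zero, that is, every cocycle with values in `J[p ^ m]` which is trivial in `H ^ 1(K_v, J)` for
all places `v` different from `t = ∞` is the coboundary of an element of `J[p ^ m]`. -/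
structure Conclusions (p q : ℕ) (k : Type) {K : Type} [Field k] [Field K] [Algebra k[X] K]
    [IsFractionRing k[X] K] (F : K[X]) : Prop where
  sha : ShaTriv p q k[X] F
  divisible : ∀ (m : ℕ) (x : Jac q F K), ∃ y : Jac q F K, x = p ^ m • y
  selmer : ∀ (m : ℕ) (c : (Sep K ≃ₐ[K] Sep K) → Jac q F (Sep K)), IsCoc q F c →
    (∀ σ, p ^ m • c σ = 0) →
    (∀ v : HeightOneSpectrum k[X], LocTriv q F (Comp k[X] K v) (Sep (Comp k[X] K v)) c) →
    ∃ R : Jac q F (Sep K), p ^ m • R = 0 ∧ IsCobOf q F c R

/-- The conclusions hold over `K = k'(t)` for all the finite extensions `k'` of `k` of `p`-power degree,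
for all the powers `q = p ^ (s + 1)` such that `k'` contains the `q`-th roots of unity, and for the twists
by all `D' ≠ 0` over `k'` whose prime factors divide `D`. -/
def HoldsOverPExtensions (p : ℕ) (f : k[X][X]) (D : k[X]) : Prop :=
  ∀ (k' K : Type) [Field k'] [Finite k'] [Algebra k k'] [Field K] [Algebra k'[X] K]
    [IsFractionRing k'[X] K] (a : ℕ), Module.finrank k k' = p ^ a →
    ∀ (s : ℕ) (ζ : k'), IsPrimitiveRoot ζ (p ^ (s + 1)) → ∀ D' : k'[X], D' ≠ 0 →
      (∀ Q : k'[X], Irreducible Q → Q ∣ D' → Q ∣ D.map (algebraMap k k')) →
      Conclusions p (p ^ (s + 1)) k' (twist K (f.map (mapRingHom (algebraMap k k'))) D')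

end defs

/-- **The twisted tower curves over the extensions of the constants of `p`-power degree.**

Let `k` be a finite field and `p` a prime number. Let `f` be a polynomial in `x` and `t` over `k` which is
obtained from `x` by the operations of `IsTowerCurve p`, monic in `x` of degree `n` prime to `p`, with a
non-zero derivative in `x`; and let `D ≠ 0` be a polynomial in `t` such that `f` is irreducible modulo
every irreducible factor of `D`. Then for all the extensions `k'` of `k` of degree `p ^ a`, all
`q = p ^ (s + 1)` dividing the order of the group `k' ^ *`, and all `D'` over `k'` composed of prime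
factors of `D`: the `p`-primary part of the Tate-Shafarevich group and the Selmer groups at `p ^ m` of the
Jacobian `J` of `w ^ q = D' ^ n f(x / D', t)` over `K = k'(t)` are zero, and `J(K) = p ^ m J(K)`.

If `k` contains the `p`-th roots of unity (the fourth roots of unity, if `p = 2`), then all the powers of
`p` occur as `q` over the layers of the tower of the extensions of `p`-power degree. -/
theorem result (k : Type) [Field k] [Finite k] (p : ℕ) (hp : p.Prime) (f : k[X][X])
    (hf : IsTowerCurve p f) (hm : f.Monic) (hn : p.Coprime f.natDegree) (hf' : derivative f ≠ 0)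
    (D : k[X]) (hD : IsInert f D) : HoldsOverPExtensions p f D := by
  intro k' K _ _ _ _ _ _ a ha s ζ hζ D' hD' hdd
  obtain ⟨h1, h2, h3⟩ := Pool.Agent.X261.TS.tower_all (K := K) hp ha hf hm hn hf' hD.1 hD.2 hζ hD'
    hdd
  exact ⟨h1, h2, h3⟩

end Pool.Agent.Results.MP_bd895b_nt.TwistedTowersPExtensions
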